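import Pool.Agent.N145.SX.Stm

/-!
Project SX (helper145), part GT: images of varieties whose canonical forms separate points are of
general type (helper277).
-/

set_option autoImplicit false
set_option linter.overlappingInstances false
set_option linter.unusedSectionVars false

open Polynomial FF IntermediateField Module

namespace Pool.Agent.N277.SX

open Pool.Agent.N145.SX Pool.Agent.N145.PC
open Pool.Agent.W602.GT (Divisorial RegAt IsPluri KodGe)
open Pool.Agent.Y184.NT (trForm trForm_pluri trForm_reg)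

section

variable {N E Ω : Type} [Field N] [Field E] [Field Ω] [Algebra ℂ N] [Algebra ℂ E] [Algebra ℂ Ω]
  [Algebra N E] [IsScalarTower ℂ N E] [FiniteDimensional N E]

/-- the points of a fibre of `E / N`, in a larger field -/
noncomputable def emb (i : AlgebraicClosure N →ₐ[ℂ] Ω) (τ : E →ₐ[N] AlgebraicClosure N) : E →ₐ[ℂ] Ω :=
  i.comp (τ.restrictScalars ℂ)

lemma emb_apply (i : AlgebraicClosure N →ₐ[ℂ] Ω) (τ : E →ₐ[N] AlgebraicClosure N) (z : E) :
    emb i τ z = i (τ z) := rfl

lemma emb_inj (i : AlgebraicClosure N →ₐ[ℂ] Ω) :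
    Function.Injective (emb (E := E) i) := by
  intro τ τ' h
  ext z
  exact i.injective (DFunLike.congr_fun h z)

open Classical in
/-- the points of a fibre -/
noncomputable def pts (i : AlgebraicClosure N →ₐ[ℂ] Ω) : Finset (E →ₐ[ℂ] Ω) :=
  Finset.univ.image (emb i)

lemma emb_mem (i : AlgebraicClosure N →ₐ[ℂ] Ω) (τ : E →ₐ[N] AlgebraicClosure N) :
    emb i τ ∈ pts (E := E) i := by
  classical
  exact Finset.mem_image_of_mem _ (Finset.mem_univ τ)

lemma card_pts (i : AlgebraicClosure N →ₐ[ℂ] Ω) : (pts (E := E) i).card ≤ finrank N E := by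
  classical
  have hchar : CharZero N := charZero_of_injective_algebraMap (algebraMap ℂ N).injective
  refine Finset.card_image_le.trans ?_
  rw [Finset.card_univ, AlgHom.card]

lemma sum_pts (i : AlgebraicClosure N →ₐ[ℂ] Ω) (z : E) :
    ∑ σ ∈ pts (E := E) i, σ z =
      i (algebraMap N (AlgebraicClosure N) (Algebra.trace N E z)) := by
  classical
  have hchar : CharZero N := charZero_of_injective_algebraMap (algebraMap ℂ N).injective
  rw [pts, Finset.sum_image fun a _ b _ h => emb_inj i h,
    trace_eq_sum_embeddings (K := N) (L := E) (AlgebraicClosure N), map_sum]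
  rfl

end

theorem GT : S_GT := by
  intro N E _ _ _ _ _ _ _ _ m hm x hx g hsep hdeg
  classical
  have hessN : Algebra.EssFiniteType ℂ N := Pool.Agent.TH466.QG.ess_below (K := E)
  have hN : Algebra.trdeg ℂ N = m := Pool.Agent.Y184.NT.trdeg_below (K := E) hm
  obtain ⟨y, G, hy, hG⟩ := Pool.Agent.Y172.exists_crd hN
  choose G' hG' using fun i => Pool.Agent.Y172.exists_lift (L := E) hN (G i)
  have hGE := Pool.Agent.Y172.lift_dual hG hG'
  obtain ⟨h, hdef⟩ : ∃ h, h = (Matrix.of fun i j => G' i (x j) :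
    Matrix (Fin m) (Fin m) E).det := ⟨_, rfl⟩
  have hh : h ≠ 0 := by
    intro h0
    rw [hdef] at h0
    obtain ⟨v, hv, hv0⟩ := Matrix.exists_vecMul_eq_zero_iff.2 h0
    have happ : ∀ z : E, (∑ i, v i • G' i : Derivation ℂ E E) z = ∑ i, v i * G' i z := by
      intro z
      have h1 := map_sum (Derivation.coeFnAddMonoidHom (R := ℂ) (A := E) (M := E))
        (fun i => v i • G' i) Finset.univ
      have h2 := congrFun h1 z
      rw [Finset.sum_apply] at h2
      exact h2
    have h1 : (∑ i, v i • G' i : Derivation ℂ E E) = 0 := by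
      apply Pool.Agent.Y888.NT.der_ext' x hx
      intro j
      rw [happ]
      exact congrFun hv0 j
    apply hv
    funext j
    have h2 := happ (algebraMap N E (y j))
    rw [h1] at h2
    have h3 : ∑ i, v i * G' i (algebraMap N E (y j)) = v j := by
      rw [Finset.sum_eq_single j]
      · rw [hGE, if_pos rfl, mul_one]
      · intro i _ hi
        rw [hGE, if_neg hi, mul_zero]
      · intro hj
        exact absurd (Finset.mem_univ j) hj
    rw [h3] at h2
    exact h2.symm
  obtain ⟨T, hT⟩ : ∃ T : {f : E // f ∈ HX x (fun _ => False)} → N,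
    ∀ f, T f = Algebra.trace N E (h * (f : E)) := ⟨_, fun _ => rfl⟩
  have hreg : ∀ f, ∀ P : Place ℂ N, Divisorial m P → RegAt P (trForm y (T f)) := by
    intro f P hP
    have h1 := trForm_reg hN hy hG hG' (trForm x (f : E)) (trForm_pluri x _)
      (fun Q hQ => (f.2 Q hQ).2 not_false) P hP
    rw [hT, hdef]
    exact h1
  obtain ⟨τ0⟩ : Nonempty (E →ₐ[N] AlgebraicClosure N) :=
    ⟨IsAlgClosed.lift (R := N) (M := AlgebraicClosure N) (S := E)⟩
  have hT0 : ∃ f, T f ≠ 0 := by
    by_contra hcon
    push Not at hcon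
    have h1 := hsep (AlgebraicClosure N) (pts (E := E) (AlgHom.id ℂ (AlgebraicClosure N)))
      (lt_of_le_of_lt (card_pts _) (by omega)) (fun σ => σ h) (by
        intro f hf
        have h2 := sum_pts (AlgHom.id ℂ (AlgebraicClosure N)) (h * f)
        have h3 := hcon ⟨f, hf⟩
        rw [hT] at h3
        rw [h3, map_zero, map_zero] at h2
        rw [← h2]
        exact Finset.sum_congr rfl fun σ _ => (map_mul σ h f).symm) _
      (emb_mem (AlgHom.id ℂ (AlgebraicClosure N)) τ0)
    have h2 : τ0 h = 0 := h1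
    exact hh (by simpa using h2)
  obtain ⟨f1, hf1⟩ := hT0
  obtain ⟨Ω', iF, iA, iC, i1, i2, lam, hlam, hlamT, hpts⟩ := exists_pts T hf1
  have hc := hsep Ω' (pts (E := E) i1 ∪ pts (E := E) i2)
    (lt_of_le_of_lt ((Finset.card_union_le _ _).trans
      (add_le_add (card_pts _) (card_pts _))) (by omega))
    (fun σ => ((if σ ∈ pts (E := E) i2 then 1 else 0) -
      lam * (if σ ∈ pts (E := E) i1 then 1 else 0)) * σ h) (by
      intro f hf
      have e1 := sum_pts i1 (h * f)
      have e2 := sum_pts i2 (h * f)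
      have e3 := hlamT ⟨f, hf⟩
      rw [hT] at e3
      have e4 : ∀ A B : Finset (E →ₐ[ℂ] Ω'), B ⊆ A →
          ∑ σ ∈ A, (if σ ∈ B then 1 else 0) * σ (h * f) = ∑ σ ∈ B, σ (h * f) := by
        intro A B hAB
        rw [← Finset.sum_subset hAB]
        · exact Finset.sum_congr rfl fun σ hσ => by rw [if_pos hσ, one_mul]
        · intro σ _ hσ
          rw [if_neg hσ, zero_mul]
      have e5 := e4 _ _ (Finset.subset_union_left (s₁ := pts (E := E) i1) (s₂ := pts (E := E) i2))
      have e6 := e4 _ _ (Finset.subset_union_right (s₁ := pts (E := E) i1) (s₂ := pts (E := E) i2))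
      have e7 : ∀ σ ∈ pts (E := E) i1 ∪ pts (E := E) i2,
          ((if σ ∈ pts (E := E) i2 then 1 else 0) -
            lam * (if σ ∈ pts (E := E) i1 then 1 else 0)) * σ h * σ f =
          (if σ ∈ pts (E := E) i2 then 1 else 0) * σ (h * f) -
            lam * ((if σ ∈ pts (E := E) i1 then 1 else 0) * σ (h * f)) := by
        intro σ _
        rw [map_mul]
        ring
      rw [Finset.sum_congr rfl e7, Finset.sum_sub_distrib, ← Finset.mul_sum, e5, e6, e1, e2]
      exact sub_eq_zero.2 e3)
  have hex : ∃ τ : E →ₐ[N] AlgebraicClosure N, emb i2 τ = emb i1 τ0 := by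
    by_contra hcon
    have h1 : emb i1 τ0 ∉ pts (E := E) i2 := by
      intro h2
      obtain ⟨τ, _, hτ⟩ := Finset.mem_image.1 h2
      exact hcon ⟨τ, hτ⟩
    have h2 := hc (emb i1 τ0) (Finset.mem_union_left _ (emb_mem i1 τ0))
    simp only [if_neg h1, if_pos (emb_mem i1 τ0)] at h2
    rw [mul_one, zero_sub, neg_mul, neg_eq_zero, mul_eq_zero] at h2
    rcases h2 with h2 | h2
    · exact hlam h2
    · exact hh (by simpa using h2)
  obtain ⟨τ, hτ⟩ := hex
  refine kodGe_of_alg hN hG T ⟨f1, hf1⟩ hreg (trdeg_adj hx.1) fun j => ?_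
  exact alg_back τ0 (hpts _ (τ (x j)) (DFunLike.congr_fun hτ (x j)).symm)

end Pool.Agent.N277.SX
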