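import Pool.Agent.N145.SX.Stm5
import Pool.Agent.N145.PC.Str1
import Pool.Agent.N145.PC.Str3

/-!
Degrees over the base of a fibration: `E` is finite over `N`, `N` is algebraically closed in `L`, so the
degrees of composita over `N` and over `L` agree, and the tower law gives the relative degrees.
-/

set_option autoImplicit false
set_option linter.overlappingInstances false
set_option linter.unusedSectionVars false
set_option linter.unusedVariables false
set_option maxHeartbeats 4000000
set_option synthInstance.maxHeartbeats 400000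

open Polynomial IntermediateField Module

namespace Pool.Agent.N277.SX

open Pool.Agent.N145.PC Pool.Agent.N145.SX

section

variable {N L E K : Type} [Field N] [Field L] [Field E] [Field K] [Algebra N L] [Algebra N E]
  [Algebra L K] [Algebra E K] [Algebra N K] [IsScalarTower N L K] [IsScalarTower N E K]
  [CharZero N] [FiniteDimensional N E] [FiniteDimensional L K]

theorem finrank_adjoin_adjoin (F : Type) {R : Type} [Field F] [Field R] [Algebra F R]
    [FiniteDimensional F R] (S T : Set R) :
    finrank F (adjoin F S) * finrank (adjoin F S) (adjoin (adjoin F S) T) =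
      finrank F (adjoin F (S ∪ T)) := by
  have h1 := Module.finrank_mul_finrank F (adjoin F S) (adjoin (adjoin F S) T)
  rw [h1, ← adjoin_adjoin_left F S T]
  rfl

/-- degrees of composita with a field in which `N` is algebraically closed -/
theorem key (hcl : ∀ x : L, IsIntegral N x → ∃ y : N, algebraMap N L y = x) (S T : Set E)
    (A0 : IntermediateField N E) (hA0 : A0 = adjoin N S) (M0 : IntermediateField L K)
    (hM0 : M0 = adjoin L (algebraMap E K '' S)) (T' : Set K) (hT' : T' = algebraMap E K '' T) :
    finrank A0 (adjoin A0 T) ≤ finrank M0 (adjoin M0 T') := by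
  subst hA0 hM0 hT'
  have h1 := finrank_adjoin_adjoin N S T
  have h2 := finrank_adjoin_adjoin L (algebraMap E K '' S) (algebraMap E K '' T)
  rw [← Set.image_union] at h2
  have h3 : finrank N (adjoin N (S ∪ T)) ≤ finrank L (adjoin L (algebraMap E K '' (S ∪ T))) := by
    refine finrank_le_of_disj (N := N) (L := L) (A := adjoin N (S ∪ T)) (K := K) hcl _ ?_
    rintro ⟨a, ha⟩
    change algebraMap E K a ∈ _
    induction ha using IntermediateField.adjoin_induction with
    | mem z hz => exact subset_adjoin _ _ ⟨z, hz, rfl⟩
    | algebraMap z =>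
      rw [← IsScalarTower.algebraMap_apply, IsScalarTower.algebraMap_apply N L K]
      exact IntermediateField.algebraMap_mem _ _
    | add a b _ _ ha hb => rw [map_add]; exact add_mem ha hb
    | inv a _ ha => rw [map_inv₀]; exact inv_mem ha
    | mul a b _ _ ha hb => rw [map_mul]; exact mul_mem ha hb
  have h4 : finrank L (adjoin L (algebraMap E K '' S)) ≤ finrank N (adjoin N S) := by
    have h5 := (adj_le (A0 := N) (A := adjoin N S) (R := L) (Ω := K)
      ((algebraMap E K).comp (adjoin N S).val.toRingHom) (fun a => ⟨algebraMap N L a, by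
        change _ = algebraMap E K (algebraMap N E a)
        rw [← IsScalarTower.algebraMap_apply, ← IsScalarTower.algebraMap_apply]⟩)).2
    refine le_trans ?_ h5
    have h6 : adjoin L (algebraMap E K '' S) ≤
        adjoin L (Set.range ((algebraMap E K).comp (adjoin N S).val.toRingHom)) := by
      refine adjoin.mono _ _ _ ?_
      rintro _ ⟨z, hz, rfl⟩
      exact ⟨⟨z, subset_adjoin _ _ hz⟩, rfl⟩
    exact Submodule.finrank_mono (R := L) (M := K)
      (s := (adjoin L (algebraMap E K '' S)).toSubalgebra.toSubmodule)
      (t := (adjoin L (Set.range ((algebraMap E K).comp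
        (adjoin N S).val.toRingHom))).toSubalgebra.toSubmodule) h6
  have h7 : 0 < finrank N (adjoin N S) := finrank_pos
  refine Nat.le_of_mul_le_mul_left ?_ h7
  rw [h1]
  refine h3.trans ?_
  rw [← h2]
  exact Nat.mul_le_mul_right _ h4

end

theorem deg : S_DEG := by
  intro K _ _ _ k F E _ hle hE hEcl L _ _ _ _ _ N _ _ _ _ _ _ _ _ _ _ hcl i
  have hN : CharZero N := charZero_of_injective_algebraMap (algebraMap ℂ N).injective
  refine key (N := N) (L := L) (E := E) (K := K) (fun x hx => hcl x hx.isAlgebraic)
    (⋃ l ∈ Js k i, Set.range (algebraMap (IntermediateField.restrict (hle l)) E)) _ _ rfl _ ?_ _ ?_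
  · unfold MF MJ
    congr 1
    ext z
    simp only [Set.mem_iUnion, Set.mem_range, Set.mem_image, mem_Js]
    constructor
    · rintro ⟨j, hj, y, rfl⟩
      have hjk : j.val < k := lt_trans hj i.2
      have hjj : j = (⟨j.val, hjk⟩ : Fin k).castSucc := rfl
      have hy : (y : K) ∈ F (⟨j.val, hjk⟩ : Fin k).castSucc := y.2
      refine ⟨⟨y, hle _ hy⟩, ⟨⟨j.val, hjk⟩, hj, ⟨⟨y, hle _ hy⟩, ?_⟩, rfl⟩, rfl⟩
      exact (IntermediateField.mem_restrict (hle _) _).2 hy
    · rintro ⟨y, ⟨l, hl, w, rfl⟩, rfl⟩
      exact ⟨l.castSucc, hl, ⟨_, (IntermediateField.mem_restrict (hle _) _).1 w.2⟩, rfl⟩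
  · ext z
    simp only [Set.mem_image, SetLike.mem_coe]
    constructor
    · intro hz
      exact ⟨⟨z, hle _ hz⟩, (IntermediateField.mem_restrict (hle _) _).2 hz, rfl⟩
    · rintro ⟨y, hy, rfl⟩
      exact (IntermediateField.mem_restrict (hle _) _).1 hy

end Pool.Agent.N277.SX
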